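import Pool.Agent.Run7.h822.NC.Mat

/-!
# Propagation of group-like elements in groups of matrices over noncommutative domains
-/

set_option autoImplicit false

namespace Run7.h822.NC

open Matrix Pool.Agent.K4H1.VN

variable {R : Type} [Ring R] {I : Type} [Fintype I] [DecidableEq I]
variable {Γ : Subgroup (Matrix I I R)ˣ}

/-- in an arbitrary group: an element with finitely many conjugates by `j(Δ)` commutes with a power of
each element of `j(Δ)` -/
theorem commute_of_finite {Γ₁ Δ : Type} [Group Γ₁] [Group Δ] {j : Δ →* Γ₁} {x : Γ₁}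
    (h : {y : Γ₁ | ∃ k : Δ, y = j k * x * (j k)⁻¹}.Finite) : x ∈ vc (Set.range j) := by
  rintro b ⟨d, rfl⟩
  have h1 : ∃ a b : ℕ, a ≠ b ∧ j (d ^ a) * x * (j (d ^ a))⁻¹ = j (d ^ b) * x * (j (d ^ b))⁻¹ := by
    by_contra hcon
    push Not at hcon
    have hinj : Function.Injective fun a : ℕ => j (d ^ a) * x * (j (d ^ a))⁻¹ := by
      intro a b hab
      by_contra hne
      exact hcon a b hne hab
    exact Set.infinite_of_injective_forall_mem (s := {y : Γ₁ | ∃ k : Δ, y = j k * x * (j k)⁻¹})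
      hinj (fun a => ⟨d ^ a, rfl⟩) h
  obtain ⟨a, b, hab, he⟩ := h1
  wlog hlt : a < b generalizing a b
  · exact this b a hab.symm he.symm (by omega)
  refine ⟨b - a, by omega, ?_⟩
  obtain ⟨n, rfl⟩ := Nat.exists_eq_add_of_lt hlt
  have h2 : a + n + 1 - a = n + 1 := by omega
  rw [h2]
  have h3 : j (d ^ (a + n + 1)) = j (d ^ a) * j d ^ (n + 1) := by
    rw [← map_pow, ← map_mul, ← pow_add, add_assoc]
  rw [h3, _root_.mul_inv_rev] at he
  have h4 : x = j d ^ (n + 1) * x * (j d ^ (n + 1))⁻¹ := by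
    have h5 := congrArg (fun y => (j (d ^ a))⁻¹ * y * j (d ^ a)) he
    simp only [mul_assoc, inv_mul_cancel, mul_one, inv_mul_cancel_left] at h5
    rw [mul_assoc]
    exact h5
  exact (mul_inv_eq_iff_eq_mul.1 h4.symm).trans rfl

/-- `Γ` has no scalar matrix `a ≠ 1` such that `a` commutes with the elements of `T` -/
def NoSc (Γ : Subgroup (Matrix I I R)ˣ) (T : Set R) : Prop :=
  ∀ (g : Γ) (a : R), (∀ t ∈ T, a * t = t * a) → mat g = Matrix.diagonal (fun _ => a) → g = 1

theorem eq_one_of_commute (hI : 3 ≤ Fintype.card I) {T : Set R} (hS : NoSc Γ T) (o : I) {x : Γ}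
    (h : ∀ k l, k ≠ l → k ≠ o → Commute (Matrix.single k l (1 : R)) (mat x))
    (hT : ∀ t ∈ T, ∃ k l, k ≠ l ∧ Commute (Matrix.single k l t) (mat x)) : x = 1 := by
  obtain ⟨k₀, hk₀, hX⟩ := scalar_of_commute hI o h
  refine hS x (mat x k₀ k₀) (fun t ht => ?_) hX
  obtain ⟨k, l, hkl, hc⟩ := hT t ht
  have h1 := congrFun (congrFun hc.eq k) l
  rw [hX, Matrix.mul_diagonal, Matrix.diagonal_mul] at h1
  simp only [Matrix.single_apply_same, Matrix.diagonal_apply_eq] at h1
  exact h1.symm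

section Domain

variable [IsDomain R] [CharZero R]

theorem swap_comm {i j : I} (hij : i ≠ j) {x h : Γ} {m : ℕ} (hm : 1 ≤ m)
    (hh : mat h = 1 + m • Matrix.single j i (1 : R))
    (hx : Commute (Matrix.single i j (1 : R)) (mat x))
    (hx' : Commute (Matrix.single i j (1 : R)) (mat (h⁻¹ * x * h))) :
    Commute (Matrix.single j i (1 : R)) (mat x) := by
  set X := mat x with hX
  set P : Matrix I I R := Matrix.single i j 1 with hP
  set Q : Matrix I I R := Matrix.single j i 1 with hQ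
  have hPP : P * P = 0 := single_sq hij 1
  have hQQ : Q * Q = 0 := single_sq hij.symm 1
  have hinv : mat h⁻¹ = 1 - m • Q := by
    apply mat_inv_eq
    rw [hh, mul_sub, mul_one, add_mul, one_mul, smul_mul_smul_comm, hQQ, smul_zero]
    abel
  have hQPQ : Q * P * Q = Q := by
    rw [hQ, hP, single_mul_eq, single_mul_eq, mul_one, mul_one]
  have hPQP : P * Q * P = P := by
    rw [hQ, hP, single_mul_eq, single_mul_eq, mul_one, mul_one]
  -- `X` commutes with `H P H⁻¹`
  have h1 : Commute X (mat h * P * mat h⁻¹) := by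
    have h2 := hx'.eq
    rw [mat_mul, mat_mul] at h2
    show X * (mat h * P * mat h⁻¹) = mat h * P * mat h⁻¹ * X
    calc X * (mat h * P * mat h⁻¹) = mat h * ((mat h⁻¹ * X * mat h) * P) * mat h⁻¹ := by
          simp only [← mul_assoc]
          rw [mat_mul_inv, one_mul]
      _ = mat h * (P * (mat h⁻¹ * X * mat h)) * mat h⁻¹ := by rw [h2]
      _ = mat h * P * mat h⁻¹ * X := by
          simp only [mul_assoc]
          rw [mat_mul_inv, mul_one]
  have h3 : mat h * P * mat h⁻¹ = P + m • ((Q * P - P * Q) - m • Q) := by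
    rw [hh, hinv]
    simp only [mul_sub, mul_one, add_mul, one_mul, mul_smul_comm, smul_mul_assoc, hQPQ,
      smul_sub, mul_add, smul_add]
    abel
  rw [h3] at h1
  have h4 : Commute X ((Q * P - P * Q) - m • Q) := by
    have h5 := h1.sub_right hx.symm
    rw [add_sub_cancel_left] at h5
    exact commute_smul_cancel hm h5
  set B := (Q * P - P * Q) - m • Q with hB
  have h5 : Commute X (B * P - P * B) := (h4.mul_right hx.symm).sub_right (hx.symm.mul_right h4)
  have h6 : B * P - P * B = - (m • (Q * P - P * Q)) - 2 • P := by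
    rw [hB]
    simp only [sub_mul, mul_sub, smul_mul_assoc, mul_smul_comm, smul_sub]
    rw [← mul_assoc P Q P, hPQP, ← mul_assoc P P Q, hPP, zero_mul, mul_assoc Q P P, hPP, mul_zero,
      two_nsmul]
    abel
  rw [h6] at h5
  have h7 : Commute X (Q * P - P * Q) := by
    have h8 : Commute X (2 • P) := hx.symm.smul_right 2
    have h9 := (h5.add_right h8).neg_right
    rw [sub_add_cancel, neg_neg] at h9
    exact commute_smul_cancel hm h9
  have h10 := h7.sub_right h4
  rw [hB, sub_sub_cancel] at h10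
  exact (commute_smul_cancel hm h10).symm

theorem mat_conj_eq {g h : Γ} {Z : Matrix I I R} (hZ : mat h * mat g = mat g * Z * mat h) :
    mat (g⁻¹ * (h * g * h⁻¹)) = Z := by
  rw [mat_mul, mat_mul, mat_mul, hZ, mul_assoc (mat g * Z), mat_mul_inv, mul_one, ← mul_assoc,
    mat_inv_mul, one_mul]

variable {Λ : Type} [Group Λ] {U : L2 Γ ≃ₗᵢ[ℂ] L2 Λ}

/-- group-like elements `1 + N t E_kl` of `Γ`, `t ∈ T` -/
def Sf (hU : IsStdIso U) (T : Set R) (P : I → I → Prop) : Set Γ :=
  {b | b ∈ glSub hU ∧ ∃ k l, k ≠ l ∧ P k l ∧ ∃ t ∈ T, ∃ N : ℕ, 1 ≤ N ∧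
    mat b = 1 + N • Matrix.single k l t}

/-- all seeds -/
def SeedAll (hU : IsStdIso U) (T : Set R) : Prop :=
  ∀ t ∈ T, ∀ k l, k ≠ l → ∃ b ∈ glSub hU, ∃ N : ℕ, 1 ≤ N ∧ mat b = 1 + N • Matrix.single k l t

variable {hU : IsStdIso U} {T : Set R}

theorem comm_Sf (hs : SeedAll hU T) {P : I → I → Prop} {x : Γ}
    (hx : x ∈ vc (Sf hU T P)) {t : R} (ht : t ∈ T) {k l : I} (hkl : k ≠ l) (hP : P k l) :
    Commute (Matrix.single k l t) (mat x) := by
  obtain ⟨b, hb, N, hN, hbm⟩ := hs t ht k l hkl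
  exact vc_commute hx (b := b) ⟨hb, k, l, hkl, hP, t, ht, N, hN, hbm⟩ hN (single_sq hkl t) hbm

theorem mem_vc_Sf {P : I → I → Prop} {x : Γ}
    (h : ∀ k l, k ≠ l → P k l → ∀ t : R, Commute (Matrix.single k l t) (mat x)) :
    x ∈ vc (Sf hU T P) := by
  apply mem_vc_of_commute
  rintro b ⟨-, k, l, hkl, hP, t, -, N, -, hbm⟩
  apply mat_inj
  rw [mat_mul, mat_mul, hbm, add_mul, mul_add, one_mul, mul_one, smul_mul_assoc,
    mul_smul_comm, (h k l hkl hP t).eq]

theorem gl_full (hI : 3 ≤ Fintype.card I) (h1T : (1 : R) ∈ T) (hS : NoSc Γ T)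
    (hs : SeedAll hU T) {i o : I} (hi : i ≠ o) {a : R} {g : Γ}
    (hg : mat g = 1 + Matrix.single i o a) : g ∈ glSub hU := by
  obtain ⟨j, hji, hjo⟩ := exists_third hI i o
  obtain ⟨h, hh, m, hm, hhm⟩ := hs 1 h1T j i hji
  refine gl_step hU (S₁ := Sf hU T fun k l => k ≠ o ∧ l ≠ i)
    (S₂ := Sf hU T fun k l => k ≠ o ∧ l ≠ j)
    (fun b hb => hb.1) (fun b hb => hb.1) hh ?_ ?_ ?_ ?_
  · refine mem_vc_Sf fun k l hkl hP t => ?_
    rw [hg]
    show _ * (1 + _) = (1 + _) * _
    rw [mul_add, add_mul, single_mul_ne _ _ _ _ _ _ hP.2, single_mul_ne _ _ _ _ _ _ (Ne.symm hP.1),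
      mul_one, one_mul]
  · refine mem_vc_Sf fun k l hkl hP t => ?_
    have hZ : mat (g⁻¹ * (h * g * h⁻¹)) = 1 + m • Matrix.single j o a := by
      apply mat_conj_eq
      rw [hg, hhm]
      simp only [mul_add, add_mul, mul_one, one_mul, smul_mul_smul_comm, smul_mul_assoc,
        mul_smul_comm, single_mul_eq, single_mul_ne _ _ _ _ _ _ (Ne.symm hjo), smul_zero, add_zero]
      abel
    rw [hZ]
    show _ * (1 + _) = (1 + _) * _
    rw [mul_add, add_mul, mul_smul_comm, smul_mul_assoc, single_mul_ne _ _ _ _ _ _ hP.2,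
      single_mul_ne _ _ _ _ _ _ (Ne.symm hP.1), mul_one, one_mul]
  · intro x hx hx'
    have hc : ∀ t ∈ T, ∀ k l, k ≠ l → k ≠ o → Commute (Matrix.single k l t) (mat x) := by
      intro t ht k l hkl hk
      by_cases hli : l = i
      · refine comm_Sf hs hx' ht hkl ⟨hk, ?_⟩
        rw [hli]
        exact hji.symm
      · exact comm_Sf hs hx ht hkl ⟨hk, hli⟩
    exact eq_one_of_commute hI hS o (hc 1 h1T) fun t ht => ⟨i, j, hji.symm, hc t ht i j hji.symm hi⟩
  · intro x hx hx'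
    have h1 : ∀ t ∈ T, Commute (Matrix.single i j t) (mat x) := fun t ht =>
      comm_Sf hs hx ht hji.symm ⟨hi, hji⟩
    have h2 : Commute (Matrix.single i j (1 : R)) (mat (h⁻¹ * x * h)) :=
      comm_Sf hs hx' h1T hji.symm ⟨hi, hji⟩
    have h3 : Commute (Matrix.single j i (1 : R)) (mat x) :=
      swap_comm hji.symm hm hhm (h1 1 h1T) h2
    refine eq_one_of_commute hI hS o (fun k l hkl hk => ?_) fun t ht => ⟨i, j, hji.symm, h1 t ht⟩
    by_cases hli : l = i
    · subst hli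
      by_cases hkj : k = j
      · rw [hkj]
        exact h3
      · have h4 : Commute (Matrix.single k j (1 : R)) (mat x) :=
          comm_Sf hs hx h1T hkj ⟨hk, hji⟩
        have h5 : Matrix.single k l (1 : R) = Matrix.single k j 1 * Matrix.single j l 1 := by
          rw [single_mul_eq, mul_one]
        rw [h5]
        exact h4.mul_left h3
    · exact comm_Sf hs hx h1T hkl ⟨hk, hli⟩

/-- the final step -/
theorem gl_final (hR : DividesIntegers R) (hU : IsStdIso U) (hI : 3 ≤ Fintype.card I)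
    (hS : NoSc Γ T)
    (hE : ∀ i j : I, i ≠ j → ∀ r : R, Gd (glSub hU) (Matrix.single i j r)) (g : Γ) :
    ∃ c k, Glk U g c k := by
  let S : Set Γ := {b | b ∈ glSub hU ∧ g * b * g⁻¹ ∈ glSub hU}
  have hkey : ∀ i j : I, i ≠ j → ∀ r : R, ∃ b ∈ S, ∃ N : ℕ, 1 ≤ N ∧
      mat b = 1 + N • Matrix.single i j r := by
    intro i j hij r
    set u : I → R := fun a => mat g a i with hu
    set ψ : I → R := fun b => mat g⁻¹ j b with hψ'
    have hu0 : u ≠ 0 := by
      intro h0
      have h1 := congrFun (congrFun (mat_inv_mul g) i) i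
      rw [Matrix.mul_apply, Matrix.one_apply_eq] at h1
      have h2 : ∑ k, mat g⁻¹ i k * mat g k i = 0 := by
        refine Finset.sum_eq_zero fun k _ => ?_
        have h3 : mat g k i = 0 := congrFun h0 k
        rw [h3, mul_zero]
      rw [h2] at h1
      exact zero_ne_one h1
    have hψ : ∑ k, ψ k * u k = 0 := by
      have h1 := congrFun (congrFun (mat_inv_mul g) j) i
      rw [Matrix.mul_apply, Matrix.one_apply_ne (Ne.symm hij)] at h1
      exact h1
    obtain ⟨hsq, N, hN, a, ha, hma⟩ := gd_all hR hE hI u ψ hψ hu0 r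
    obtain ⟨-, M, hM, b, hb, hmb⟩ := hE i j hij r
    have hbn : mat (b ^ N) = 1 + (N * M) • Matrix.single i j r := by
      rw [mat_pow, hmb, pow_one_add (single_sq hij r)]
    have hcr : mat g * Matrix.single i j r * mat g⁻¹ = cr u ψ r := by
      ext p q
      rw [Matrix.mul_apply, Finset.sum_eq_single j]
      · rw [Matrix.mul_single_apply_same]
        rfl
      · intro c _ hc
        rw [Matrix.mul_single_apply_of_ne _ _ _ _ _ hc, zero_mul]
      · simp
    have han : g * b ^ N * g⁻¹ = a ^ M := by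
      apply mat_inj
      rw [mat_mul, mat_mul, hbn, mat_pow, hma, pow_one_add hsq, mul_add, mul_one, add_mul,
        mat_mul_inv, mul_smul_comm, smul_mul_assoc, hcr, mul_comm M N]
    refine ⟨b ^ N, ⟨(glSub hU).pow_mem hb N, ?_⟩, N * M, Nat.mul_pos hN hM, hbn⟩
    rw [han]
    exact (glSub hU).pow_mem ha M
  refine gl_of_conj hU (S := S) (fun b hb => ⟨hb.1, hb.2⟩) fun x hx => ?_
  have hcomm : ∀ i j, i ≠ j → ∀ r : R, Commute (Matrix.single i j r) (mat x) := by
    intro i j hij r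
    obtain ⟨b, hb, N, hN, hbc⟩ := hkey i j hij r
    exact vc_commute hx hb hN (single_sq hij r) hbc
  obtain ⟨o⟩ : Nonempty I := Fintype.card_pos_iff.1 (by omega)
  obtain ⟨o', ho', -⟩ := exists_third hI o o
  exact eq_one_of_commute hI hS o (fun k l hkl _ => hcomm k l hkl 1) fun t _ =>
    ⟨o, o', ho'.symm, hcomm o o' ho'.symm t⟩

theorem gl_of_all (hR : DividesIntegers R) (hU : IsStdIso U) (hI : 3 ≤ Fintype.card I)
    (hΓ : Rich Γ) (h1T : (1 : R) ∈ T) (hS : NoSc Γ T) (hs : SeedAll hU T) (g : Γ) :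
    ∃ c k, Glk U g c k := by
  refine gl_final hR hU hI hS (fun i j hij r => ?_) g
  obtain ⟨N, hN, b, hb⟩ := hΓ i j hij r
  refine ⟨single_sq hij r, N, hN, b, ?_, hb⟩
  refine gl_full (a := N • r) hI h1T hS hs hij ?_
  rw [hb, Matrix.smul_single]

theorem relIcc_of_elems (hI : 3 ≤ Fintype.card I) {Δ : Type} [Group Δ] {j : Δ →* Γ}
    (hj : HasElems j) (x : Γ) (hx : x ≠ 1) : {y : Γ | ∃ k : Δ, y = j k * x * (j k)⁻¹}.Infinite := by
  intro hfin
  have hv := commute_of_finite hfin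
  obtain ⟨T, h1T, hT, hS⟩ := hj
  apply hx
  have hc : ∀ t ∈ T, ∀ k l, k ≠ l → Commute (Matrix.single k l t) (mat x) := by
    intro t ht k l hkl
    obtain ⟨d, N, hN, hd⟩ := hT t ht k l hkl
    exact vc_commute hv ⟨d, rfl⟩ hN (single_sq hkl t) hd
  obtain ⟨o⟩ : Nonempty I := Fintype.card_pos_iff.1 (by omega)
  obtain ⟨o', ho', -⟩ := exists_third hI o o
  exact eq_one_of_commute hI hS o (fun k l hkl _ => hc 1 h1T k l hkl) fun t ht =>
    ⟨o, o', ho'.symm, hc t ht o o' ho'.symm⟩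

/-- **Group-like on the image of `j`.** -/
theorem gl_of_elems (hR : DividesIntegers R) (hI : 3 ≤ Fintype.card I) (hΓ : Rich Γ)
    {Δ : Type} [Group Δ] {j : Δ →* Γ} (hj : HasElems j)
    (hU : IsStdIso U) (hgl : ∀ d, GroupLikeAt U (j d)) (g : Γ) : ∃ c k, Glk U g c k := by
  obtain ⟨T, h1T, hT, hS⟩ := hj
  refine gl_of_all hR hU hI hΓ h1T hS (fun t ht k l hkl => ?_) g
  obtain ⟨d, N, hN, hd⟩ := hT t ht k l hkl
  exact ⟨j d, (groupLikeAt_iff hU _).1 (hgl d), N, hN, hd⟩

end Domain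

end Run7.h822.NC
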