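import Pool.Agent.K4H1.VN.RelMx

/-!
# Unipotent matrices over noncommutative domains
-/

set_option autoImplicit false

namespace Run7.h822.NC

open Matrix Pool.Agent.K4H1.VN

/-- the matrix of an element of a group of invertible matrices -/
def mat {R : Type} [Ring R] {I : Type} [Fintype I] [DecidableEq I]
    {Γ : Subgroup (Matrix I I R)ˣ} (g : Γ) : Matrix I I R := ((g : (Matrix I I R)ˣ) : Matrix I I R)

/-- every elementary matrix `1 + r E_ij` has a positive power in `Γ` -/
def Rich {R : Type} [Ring R] {I : Type} [Fintype I] [DecidableEq I]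
    (Γ : Subgroup (Matrix I I R)ˣ) : Prop :=
  ∀ i j : I, i ≠ j → ∀ r : R, ∃ N : ℕ, 1 ≤ N ∧ ∃ g : Γ, mat g = 1 + N • Matrix.single i j r

/-- For all `t` in a set `T` which contains `1`, and all `k ≠ l`, the image of `j` contains a
positive power of the elementary matrix `1 + t E_kl`; and `Γ` has no scalar matrix `a ≠ 1` such that
`a` commutes with all elements of `T`. -/
def HasElems {R : Type} [Ring R] {I : Type} [Fintype I] [DecidableEq I]
    {Γ : Subgroup (Matrix I I R)ˣ} {Δ : Type} [Group Δ] (j : Δ →* Γ) : Prop :=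
  ∃ T : Set R, (1 : R) ∈ T ∧
    (∀ t ∈ T, ∀ k l : I, k ≠ l → ∃ (d : Δ) (N : ℕ), 1 ≤ N ∧
      mat (j d) = 1 + N • Matrix.single k l t) ∧
    ∀ (g : Γ) (a : R), (∀ t ∈ T, a * t = t * a) → mat g = Matrix.diagonal (fun _ => a) → g = 1

variable {R : Type} [Ring R] {I : Type} [Fintype I] [DecidableEq I]
variable {Γ : Subgroup (Matrix I I R)ˣ}

theorem mat_mul (g h : Γ) : mat (g * h) = mat g * mat h := rfl

theorem mat_one : mat (1 : Γ) = 1 := rfl

theorem mat_pow (g : Γ) (N : ℕ) : mat (g ^ N) = mat g ^ N := by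
  induction N with
  | zero => rw [pow_zero, pow_zero, mat_one]
  | succ N ih => rw [pow_succ, pow_succ, mat_mul, ih]

theorem mat_inj {g h : Γ} (e : mat g = mat h) : g = h := Subtype.ext (Units.ext e)

theorem mat_mul_inv (g : Γ) : mat g * mat g⁻¹ = 1 := by rw [← mat_mul, mul_inv_cancel, mat_one]

theorem mat_inv_mul (g : Γ) : mat g⁻¹ * mat g = 1 := by rw [← mat_mul, inv_mul_cancel, mat_one]

theorem mat_inv_eq {g : Γ} {B : Matrix I I R} (h : mat g * B = 1) : mat g⁻¹ = B := by
  have h1 : mat g⁻¹ * (mat g * B) = mat g⁻¹ := by rw [h, mul_one]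
  rw [← h1, ← mul_assoc, mat_inv_mul, one_mul]

theorem pow_one_add {A : Matrix I I R} (hA : A * A = 0) (M N : ℕ) :
    (1 + M • A) ^ N = 1 + (N * M) • A := by
  induction N with
  | zero => simp
  | succ N ih =>
    rw [pow_succ, ih, mul_add, mul_one, add_mul, one_mul, smul_mul_smul_comm, hA, smul_zero,
      add_zero, add_assoc, ← add_smul]
    congr 2
    ring

/-- `1 + N A` belongs to `G` for some `N ≥ 1` -/
def Gd (G : Subgroup Γ) (A : Matrix I I R) : Prop :=
  A * A = 0 ∧ ∃ N : ℕ, 1 ≤ N ∧ ∃ g ∈ G, mat g = 1 + N • A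

variable {G : Subgroup Γ}

theorem Gd.zero : Gd G (0 : Matrix I I R) :=
  ⟨mul_zero _, 1, le_rfl, 1, G.one_mem, by rw [smul_zero, add_zero, mat_one]⟩

theorem Gd.add {A B : Matrix I I R} (hA : Gd G A) (hB : Gd G B) (hAB : A * B = 0)
    (hBA : B * A = 0) : Gd G (A + B) := by
  refine ⟨by rw [add_mul, mul_add, mul_add, hA.1, hB.1, hAB, hBA]; simp, ?_⟩
  obtain ⟨N, hN, g, hg, h⟩ := hA.2
  obtain ⟨M, hM, g', hg', h'⟩ := hB.2
  refine ⟨M * N, Nat.mul_pos hM hN, g ^ M * g' ^ N, G.mul_mem (G.pow_mem hg M) (G.pow_mem hg' N),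
    ?_⟩
  rw [mat_mul, mat_pow, mat_pow, h, h', pow_one_add hA.1, pow_one_add hB.1, mul_add, mul_one,
    add_mul, one_mul, smul_mul_smul_comm, hAB, smul_zero, add_zero, smul_add, add_assoc,
    mul_comm N M]

theorem Gd.sum {ι : Type} (s : Finset ι) (A : ι → Matrix I I R) (h : ∀ i ∈ s, Gd G (A i))
    (h0 : ∀ i ∈ s, ∀ j ∈ s, A i * A j = 0) : Gd G (∑ i ∈ s, A i) := by
  classical
  induction s using Finset.induction_on with
  | empty =>
    rw [Finset.sum_empty]
    exact Gd.zero
  | insert a s ha ih =>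
    rw [Finset.sum_insert ha]
    refine (h a (Finset.mem_insert_self _ _)).add
      (ih (fun i hi => h i (Finset.mem_insert_of_mem hi))
        (fun i hi j hj => h0 i (Finset.mem_insert_of_mem hi) j (Finset.mem_insert_of_mem hj))) ?_ ?_
    · rw [Finset.mul_sum]
      exact Finset.sum_eq_zero fun j hj => h0 a (Finset.mem_insert_self _ _) j
        (Finset.mem_insert_of_mem hj)
    · rw [Finset.sum_mul]
      exact Finset.sum_eq_zero fun j hj => h0 j (Finset.mem_insert_of_mem hj) a
        (Finset.mem_insert_self _ _)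

theorem Gd.mul {A B : Matrix I I R} (hA : Gd G A) (hB : Gd G B) (hBA : B * A = 0) :
    Gd G (A * B) := by
  refine ⟨by rw [mul_assoc, ← mul_assoc B, hBA, zero_mul, mul_zero], ?_⟩
  obtain ⟨N, hN, g, hg, h⟩ := hA.2
  obtain ⟨M, hM, g', hg', h'⟩ := hB.2
  refine ⟨N * M, Nat.mul_pos hN hM, g * g' * (g' * g)⁻¹,
    G.mul_mem (G.mul_mem hg hg') (G.inv_mem (G.mul_mem hg' hg)), ?_⟩
  have e1 : A * B * B = 0 := by rw [mul_assoc, hB.1, mul_zero]
  have e2 : A * B * A = 0 := by rw [mul_assoc, hBA, mul_zero]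
  have h1 : mat (g * g') = (1 + (N * M) • (A * B)) * mat (g' * g) := by
    rw [mat_mul, mat_mul, h, h']
    simp only [mul_add, add_mul, mul_one, one_mul, smul_mul_smul_comm, hBA, smul_zero,
      add_zero, e1, e2]
    abel
  rw [mat_mul, h1, mul_assoc, mat_mul_inv, mul_one]

theorem Gd.of_nsmul {A : Matrix I I R} (hA : A * A = 0) {n : ℕ} (hn : 1 ≤ n)
    (h : Gd G (n • A)) : Gd G A := by
  obtain ⟨-, N, hN, g, hg, h1⟩ := h
  exact ⟨hA, N * n, Nat.mul_pos hN hn, g, hg, by rw [h1, smul_smul]⟩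

/-- the matrix `u r ψ`, `u` a column, `ψ` a row -/
def cr (u ψ : I → R) (r : R) : Matrix I I R := Matrix.of fun a b => u a * r * ψ b

theorem cr_mul (u ψ w φ : I → R) (r s : R) :
    cr u ψ r * cr w φ s = cr u φ (r * (∑ k, ψ k * w k) * s) := by
  ext a b
  simp only [cr, Matrix.mul_apply, Matrix.of_apply]
  rw [Finset.mul_sum, Finset.sum_mul, Finset.mul_sum, Finset.sum_mul]
  refine Finset.sum_congr rfl fun k _ => ?_
  simp only [mul_assoc]

theorem cr_zero (u ψ : I → R) : cr u ψ 0 = 0 := by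
  ext a b
  simp [cr]

theorem cr_mul_zero (u ψ w φ : I → R) (r s : R) (h : ∑ k, ψ k * w k = 0) :
    cr u ψ r * cr w φ s = 0 := by
  rw [cr_mul, h, mul_zero, zero_mul, cr_zero]

theorem single_mul_ne (i j k l : I) (a b : R) (h : j ≠ k) :
    Matrix.single i j a * Matrix.single k l b = 0 :=
  Matrix.single_mul_single_of_ne a i j k h b

theorem single_mul_eq (i j l : I) (a b : R) :
    Matrix.single i j a * Matrix.single j l b = Matrix.single i l (a * b) :=
  Matrix.single_mul_single_same a i j l b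

theorem single_sq {i j : I} (h : i ≠ j) (a : R) :
    Matrix.single i j a * Matrix.single i j a = 0 := single_mul_ne _ _ _ _ _ _ h.symm

theorem gd_col (hE : ∀ i j : I, i ≠ j → ∀ r : R, Gd G (Matrix.single i j r)) (u : I → R) (i : I)
    (hi : u i = 0) (r : R) : Gd G (cr u (Pi.single i 1) r) := by
  have h1 : cr u (Pi.single i 1) r = ∑ l, Matrix.single l i (u l * r) := by
    ext a b
    rw [Matrix.sum_apply, Finset.sum_eq_single a]
    · simp only [cr, Matrix.of_apply, Pi.single_apply, Matrix.single, true_and]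
      by_cases h : b = i
      · rw [if_pos h, if_pos h.symm, mul_one]
      · rw [if_neg h, if_neg (Ne.symm h), mul_zero]
    · intro c _ hc
      simp [Matrix.single, hc]
    · simp
  rw [h1]
  refine Gd.sum _ _ (fun l _ => ?_) fun l _ l' _ => ?_
  · by_cases hl : l = i
    · rw [hl, hi, zero_mul, Matrix.single_zero]
      exact Gd.zero
    · exact hE l i hl _
  · by_cases hl : i = l'
    · rw [← hl, hi, zero_mul, Matrix.single_zero, mul_zero]
    · exact single_mul_ne _ _ _ _ _ _ hl

theorem gd_row (hE : ∀ i j : I, i ≠ j → ∀ r : R, Gd G (Matrix.single i j r)) (ψ : I → R) (i : I)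
    (hi : ψ i = 0) (r : R) : Gd G (cr (Pi.single i 1) ψ r) := by
  have h1 : cr (Pi.single i 1) ψ r = ∑ l, Matrix.single i l (r * ψ l) := by
    ext a b
    rw [Matrix.sum_apply, Finset.sum_eq_single b]
    · simp only [cr, Matrix.of_apply, Pi.single_apply, Matrix.single, and_true]
      by_cases h : a = i
      · rw [if_pos h, if_pos h.symm, one_mul]
      · rw [if_neg h, if_neg (Ne.symm h), zero_mul, zero_mul]
    · intro c _ hc
      simp [Matrix.single, hc]
    · simp
  rw [h1]
  refine Gd.sum _ _ (fun l _ => ?_) fun l _ l' _ => ?_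
  · by_cases hl : i = l
    · rw [← hl, hi, mul_zero, Matrix.single_zero]
      exact Gd.zero
    · exact hE i l hl _
  · by_cases hl : l = i
    · rw [hl, hi, mul_zero, Matrix.single_zero, zero_mul]
    · exact single_mul_ne _ _ _ _ _ _ hl

theorem sum_single_mul (i : I) (w : I → R) : ∑ k, (Pi.single i (1 : R) : I → R) k * w k = w i := by
  rw [Finset.sum_eq_single i]
  · rw [Pi.single_eq_same, one_mul]
  · intro b _ hb
    rw [Pi.single_eq_of_ne hb, zero_mul]
  · simp

theorem sum_mul_single (i : I) (w : I → R) : ∑ k, w k * (Pi.single i (1 : R) : I → R) k = w i := by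
  rw [Finset.sum_eq_single i]
  · rw [Pi.single_eq_same, mul_one]
  · intro b _ hb
    rw [Pi.single_eq_of_ne hb, mul_zero]
  · simp

theorem gd_mid (hE : ∀ i j : I, i ≠ j → ∀ r : R, Gd G (Matrix.single i j r)) (u ψ : I → R)
    (hψ : ∑ k, ψ k * u k = 0) (i : I) (hi : ψ i = 0) (r : R) : Gd G (cr u ψ r) := by
  set u' : I → R := fun k => if k = i then 0 else u k with hu'
  have hu'i : u' i = 0 := by rw [hu']; simp
  have hd : ∑ k, ψ k * u' k = 0 := by
    rw [← hψ]
    refine Finset.sum_congr rfl fun k _ => ?_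
    by_cases hk : k = i
    · rw [hk, hi, zero_mul, zero_mul]
    · simp only [hu', if_neg hk]
  have h1 : cr u ψ r = cr (Pi.single i 1) ψ (u i * r) +
      cr u' (Pi.single i 1) 1 * cr (Pi.single i 1) ψ r := by
    rw [cr_mul, sum_single_mul, Pi.single_eq_same, mul_one, one_mul]
    ext a b
    simp only [cr, Matrix.add_apply, Matrix.of_apply, hu', Pi.single_apply]
    by_cases ha : a = i
    · rw [if_pos ha, if_pos ha, ha]
      simp [mul_assoc]
    · rw [if_neg ha, if_neg ha]
      simp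
  rw [h1]
  have h2 := gd_row hE ψ i hi
  have h3 : cr (Pi.single i 1) ψ r * cr u' (Pi.single i 1) 1 = 0 := cr_mul_zero _ _ _ _ _ _ hd
  refine (h2 _).add ((gd_col hE _ i hu'i 1).mul (h2 r) h3) ?_ ?_
  · rw [← mul_assoc, cr_mul_zero _ _ _ _ _ _ hd, zero_mul]
  · rw [mul_assoc, cr_mul_zero (Pi.single i 1) ψ (Pi.single i 1) ψ r (u i * r)
      (by rw [sum_mul_single, hi]), mul_zero]

/-- every non-zero element of `R` divides a positive integer -/
def DividesIntegers (R : Type) [Ring R] : Prop :=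
  ∀ a : R, a ≠ 0 → ∃ b : R, ∃ n : ℕ, 1 ≤ n ∧ b * a = n

/-- all elementary unipotent matrices, up to a power -/
theorem gd_all (hR : DividesIntegers R) (hE : ∀ i j : I, i ≠ j → ∀ r : R, Gd G (Matrix.single i j r))
    (hI : 3 ≤ Fintype.card I) (u ψ : I → R) (hψ : ∑ k, ψ k * u k = 0) (hu : u ≠ 0) (r : R) :
    Gd G (cr u ψ r) := by
  obtain ⟨j, hj⟩ := Function.ne_iff.1 hu
  obtain ⟨v, n, hn, hv⟩ := hR (u j) hj
  have hsq : cr u ψ r * cr u ψ r = 0 := cr_mul_zero _ _ _ _ _ _ hψ
  refine Gd.of_nsmul hsq hn ?_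
  set χ : I → I → R := fun k b => (if b = k then (n : R) else 0) -
    u k * v * (if b = j then 1 else 0) with hχ
  have h0 : ∀ k, ∑ b, χ k b * u b = 0 := by
    intro k
    simp only [hχ, sub_mul, Finset.sum_sub_distrib, ite_mul, zero_mul, mul_ite, mul_one, mul_zero,
      Finset.sum_ite_eq', Finset.sum_ite_eq, Finset.mem_univ, if_true]
    rw [mul_assoc, hv, Nat.cast_comm, sub_self]
  have h1 : n • cr u ψ r = ∑ k, cr u (χ k) (r * ψ k) := by
    ext a b
    rw [Matrix.sum_apply, Matrix.smul_apply]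
    simp only [cr, Matrix.of_apply, hχ, mul_sub, Finset.sum_sub_distrib]
    have h2 : ∑ k, u a * (r * ψ k) * (u k * v * if b = j then 1 else 0) = 0 := by
      have h3 : ∀ k, u a * (r * ψ k) * (u k * v * if b = j then 1 else 0) =
          (u a * r) * (ψ k * u k) * (v * if b = j then 1 else 0) := fun k => by
        simp only [mul_assoc]
      simp_rw [h3]
      rw [← Finset.sum_mul, ← Finset.mul_sum, hψ, mul_zero, zero_mul]
    rw [h2, sub_zero, Finset.sum_eq_single b]
    · rw [if_pos rfl, nsmul_eq_mul, (Nat.cast_commute n _).eq]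
      simp only [mul_assoc]
    · intro c _ hc
      rw [if_neg (Ne.symm hc), mul_zero]
    · simp
  rw [h1]
  refine Gd.sum _ _ (fun k _ => ?_) fun k _ l _ => cr_mul_zero _ _ _ _ _ _ (h0 k)
  obtain ⟨i, hi⟩ : ∃ i, i ∉ ({j, k} : Finset I) := by
    by_contra hcon
    push Not at hcon
    have h2 : Fintype.card I ≤ ({j, k} : Finset I).card := by
      rw [← Finset.card_univ]
      exact Finset.card_le_card fun x _ => hcon x
    have h3 : ({j, k} : Finset I).card ≤ 2 := Finset.card_le_two
    omega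
  rw [Finset.mem_insert, Finset.mem_singleton, not_or] at hi
  refine gd_mid hE _ _ (h0 k) i ?_ _
  simp [hχ, hi.1, hi.2]

section Torsion

variable [IsDomain R] [CharZero R]

theorem nsmul_cancel {A B : Matrix I I R} {N : ℕ} (hN : 1 ≤ N) (h : N • A = N • B) : A = B := by
  ext a b
  have h1 := congrFun (congrFun h a) b
  rw [Matrix.smul_apply, Matrix.smul_apply, nsmul_eq_mul, nsmul_eq_mul] at h1
  exact mul_left_cancel₀ (Nat.cast_ne_zero.2 (by omega)) h1

theorem commute_of_pow {A X : Matrix I I R} {M N : ℕ} (hM : 1 ≤ M) (hN : 1 ≤ N) (hA : A * A = 0)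
    (h : (1 + M • A) ^ N * X = X * (1 + M • A) ^ N) : Commute A X := by
  rw [pow_one_add hA, add_mul, mul_add, one_mul, mul_one, add_left_cancel_iff, smul_mul_assoc,
    mul_smul_comm] at h
  exact nsmul_cancel (Nat.mul_pos hN hM) h

theorem vc_commute {S : Set Γ} {x : Γ} (hx : x ∈ vc S) {b : Γ}
    (hb : b ∈ S) {M : ℕ} (hM : 1 ≤ M) {A : Matrix I I R} (hA : A * A = 0)
    (hbA : mat b = 1 + M • A) : Commute A (mat x) := by
  obtain ⟨N, hN, h⟩ := hx b hb
  have h1 := congrArg mat h
  rw [mat_mul, mat_mul, mat_pow, hbA] at h1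
  exact commute_of_pow hM hN hA h1

theorem commute_smul_cancel {X A : Matrix I I R} {m : ℕ} (hm : 1 ≤ m)
    (h : Commute X (m • A)) : Commute X A := by
  have h1 := h.eq
  rw [smul_mul_assoc, mul_smul_comm] at h1
  exact nsmul_cancel hm h1

end Torsion

/-- a matrix which commutes with the matrix units `E_kl`, `k ≠ o`, is scalar -/
theorem scalar_of_commute (hI : 3 ≤ Fintype.card I) (o : I) {X : Matrix I I R}
    (h : ∀ k l, k ≠ l → k ≠ o → Commute (Matrix.single k l (1 : R)) X) :
    ∃ k₀, k₀ ≠ o ∧ X = Matrix.diagonal (fun _ => X k₀ k₀) := by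
  obtain ⟨k₀, hk₀, -⟩ := exists_third hI o o
  refine ⟨k₀, hk₀, ?_⟩
  have hent : ∀ k l a b, k ≠ l → k ≠ o →
      (if a = k then X l b else 0) = (if b = l then X a k else 0) := by
    intro k l a b hkl hk
    have h1 := congrFun (congrFun (h k l hkl hk).eq a) b
    rw [Matrix.mul_apply, Matrix.mul_apply] at h1
    simp only [Matrix.single, Matrix.of_apply] at h1
    rw [Finset.sum_eq_single l, Finset.sum_eq_single k] at h1
    · by_cases ha : a = k
      · by_cases hb : b = l
        · rw [if_pos ha, if_pos hb]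
          simpa [ha.symm, hb.symm] using h1
        · rw [if_pos ha, if_neg hb]
          simpa [ha.symm, Ne.symm hb] using h1
      · by_cases hb : b = l
        · rw [if_neg ha, if_pos hb]
          simpa [Ne.symm ha, hb.symm] using h1
        · rw [if_neg ha, if_neg hb]
    · intro c _ hc
      simp [Ne.symm hc]
    · simp
    · intro c _ hc
      simp [Ne.symm hc]
    · simp
  ext a b
  by_cases hab : a = b
  · subst hab
    rw [Matrix.diagonal_apply_eq]
    by_cases ha : a = k₀
    · rw [ha]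
    · have h1 := hent k₀ a k₀ a (Ne.symm ha) hk₀
      rw [if_pos rfl, if_pos rfl] at h1
      exact h1
  · rw [Matrix.diagonal_apply_ne _ hab]
    obtain ⟨k, hka, hko⟩ := exists_third hI a o
    have h1 := hent k a k b hka hko
    rw [if_pos rfl, if_neg (Ne.symm hab)] at h1
    exact h1

end Run7.h822.NC
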